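import Pool.Agent.Helper50.Tm.Goals

/-! The norm map on the Weil restriction (goal NORM of the project TAME). -/

set_option autoImplicit false

open CategoryTheory AlgebraicGeometry Limits TensorProduct MonoidalCategory
open scoped Obj

namespace Pool.Agent.Helper76.Tm

open Pool.Agent.Helper50.Tm

/-- an algebra `C = M ⊗[R] W` with all the structures -/
theorem exC (K R M W : Type) [Field K] [CommRing R] [Field M] [Algebra K M] [Algebra R M]
    [CommRing W] [Algebra R W] :
    ∃ (C : Type) (_ : CommRing C) (_ : Algebra R C) (_ : Algebra M C) (_ : Algebra K C)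
      (_ : Algebra W C) (_ : IsScalarTower R M C) (_ : IsScalarTower R W C),
      IsScalarTower K M C ∧ Algebra.IsPushout R M W C := by
  let _ : Algebra W (M ⊗[R] W) := Algebra.TensorProduct.rightAlgebra
  let _ : Algebra K (M ⊗[R] W) :=
    ((algebraMap M (M ⊗[R] W)).comp (algebraMap K M)).toAlgebra
  refine ⟨M ⊗[R] W, inferInstance, inferInstance, inferInstance, inferInstance, inferInstance,
    inferInstance, inferInstance, ?_, ?_⟩
  · exact IsScalarTower.of_algebraMap_eq' rfl
  · infer_instance

/-- an algebra `D = N ⊗[M] C` with all the structures -/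
theorem exD (K R M S N C : Type) [Field K] [CommRing R] [Field M] [CommRing S] [Field N]
    [Algebra K M] [Algebra R M] [Algebra K N] [Algebra S N] [Algebra M N] [Algebra R S]
    [Algebra R N] [IsScalarTower K M N] [IsScalarTower R M N] [IsScalarTower R S N]
    [CommRing C] [Algebra R C] [Algebra M C] [Algebra K C]
    [IsScalarTower R M C] [IsScalarTower K M C] :
    ∃ (D : Type) (_ : CommRing D) (_ : Algebra S D) (_ : Algebra N D) (_ : Algebra K D)
      (_ : Algebra M D) (_ : Algebra C D) (_ : Algebra R D) (_ : IsScalarTower M N D)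
      (_ : IsScalarTower M C D),
      IsScalarTower S N D ∧ IsScalarTower K N D ∧ IsScalarTower K C D ∧
      IsScalarTower R C D ∧ IsScalarTower R S D ∧ Algebra.IsPushout M N C D := by
  let _ : Algebra C (N ⊗[M] C) := Algebra.TensorProduct.rightAlgebra
  let iS : Algebra S (N ⊗[M] C) :=
    ((algebraMap N (N ⊗[M] C)).comp (algebraMap S N)).toAlgebra
  let iK : Algebra K (N ⊗[M] C) :=
    ((algebraMap N (N ⊗[M] C)).comp (algebraMap K N)).toAlgebra
  let iR : Algebra R (N ⊗[M] C) :=
    ((algebraMap C (N ⊗[M] C)).comp (algebraMap R C)).toAlgebra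
  have t1 : IsScalarTower M C (N ⊗[M] C) := inferInstance
  have t2 : IsScalarTower M N (N ⊗[M] C) := inferInstance
  have hMC : ∀ m : M, algebraMap C (N ⊗[M] C) (algebraMap M C m) =
      algebraMap N (N ⊗[M] C) (algebraMap M N m) := by
    intro m
    rw [← IsScalarTower.algebraMap_apply M C (N ⊗[M] C),
      ← IsScalarTower.algebraMap_apply M N (N ⊗[M] C)]
  refine ⟨N ⊗[M] C, inferInstance, iS, inferInstance, iK, inferInstance, inferInstance, iR,
    t2, t1, ?_, ?_, ?_, ?_, ?_, ?_⟩
  · exact IsScalarTower.of_algebraMap_eq' rfl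
  · exact IsScalarTower.of_algebraMap_eq' rfl
  · refine IsScalarTower.of_algebraMap_eq fun x => ?_
    change algebraMap N (N ⊗[M] C) (algebraMap K N x) = _
    rw [IsScalarTower.algebraMap_apply K M N, IsScalarTower.algebraMap_apply K M C, hMC]
  · exact IsScalarTower.of_algebraMap_eq' rfl
  · refine IsScalarTower.of_algebraMap_eq fun x => ?_
    change algebraMap C (N ⊗[M] C) (algebraMap R C x) =
      algebraMap N (N ⊗[M] C) (algebraMap S N (algebraMap R S x))
    rw [IsScalarTower.algebraMap_apply R M C, hMC, ← IsScalarTower.algebraMap_apply R M N,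
      ← IsScalarTower.algebraMap_apply R S N]
  · infer_instance

theorem gNORM (hNORMP : NORMP) : NORM := by
  intro K R M S N _ _ _ _ _ _ _ _ _ _ _ _ _ _ _ _ _ _ _ X _ _ 𝒢 ℋ B W _ _ _ _ _ u j
  obtain ⟨C, iC, iRC, iMC, iKC, iWC, hRMC, hRWC, hKMC, hpC⟩ := exC K R M W
  obtain ⟨D, iD, iSD, iND, iKD, iMD, iCD, iRD, hMND, hMCD, hSND, hKND, hKCD, hRCD, hRSD, hpD⟩ :=
    exD K R M S N C
  let g : W →ₐ[R] D :=
    (IsScalarTower.toAlgHom R C D).comp (IsScalarTower.toAlgHom R W C)
  let t : S ⊗[R] W →ₐ[S] D :=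
    Algebra.TensorProduct.lift (Algebra.ofId S D) g (fun _ _ => Commute.all _ _)
  refine hNORMP K R M S N X 𝒢 ℋ B W u j C D t ?_
  intro w
  change Algebra.TensorProduct.lift (Algebra.ofId S D) g (fun _ _ => Commute.all _ _)
    (1 ⊗ₜ w) = _
  rw [Algebra.TensorProduct.lift_tmul, map_one, one_mul]
  rfl

end Pool.Agent.Helper76.Tm
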